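import Pool.Agent.Q7.LK.Stm2
import Pool.Agent.TH841.NF.ShaN

/-!
# Project CE (helper7): cubic twists over every number field containing the third roots of unity

GOAL (`S_EMAIN`).  `F` any number field containing a primitive third root of unity `ω`, `E_D : y² + D y = x³` for
`D ∈ F^*` (all the cubic twists of `y² + y = x³`; `E_D` is isogenous to `x³ + y³ = D`).  Among the `D` (modulo cubes)
with given completions at all places above the rational primes `≤ y` and prescribed orders `z i ≠ 0` modulo `3` at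
`k` primes `q i`, for a share of at least `1/2 - ε` the group `E_D(F)` is finite and `Ш(E_D / F)[3^∞] = 0`.

Proof.  The engine of project LK (`S_SHARE`, `p = 3`).  The Selmer group of `√-3` is a group of classes `a ∈ F^*` modulo
cubes: the diagonal cubic `w³ = a² u³ + a D s³` has points over all completions (`AE`).  Outside `3` this is the condition of
LK.  At `v ∣ 3` the classes form an isotropic subgroup for the Hilbert symbol (`S_EISO`, an explicit norm), so there are
at most `3 ^ (1 + [F_v : ℚ_3] / 2)` of them (`S_ISO`), and `∑ [F_v : ℚ_3] / 2` is the number of the complex places.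

Notation: `T = (0, 0)`, `-T = (0, -D)`; for `P = (x, y)` one has `P + T = (- D y / x², - D² / (y + D))`.
-/

set_option autoImplicit false

namespace Pool.Agent.Q7.CE

open NumberField IsDedekindDomain Filter Topology Finset WeierstrassCurve
open Pool.Agent.Q283.LQ (Sm Box Nest nS)
open Pool.Agent.Q7.LK
open Pool.Agent.TH841.SH.D (Coch Pt act Gal IsCoc IsCob LocTriv)
open Pool.Agent.TH841.NF.D (Sha IsShaCoc)

/-- The curve `E_D : y² + D y = x³`. -/
def ED {F : Type} [Field F] (D : F) : WeierstrassCurve F := ⟨0, 0, D, 0, 0⟩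

section F

variable {F : Type} [Field F] [NumberField F]

/-- the diagonal cubic `w³ = a² u³ + a D s³` has a point over the completion at `v` -/
def AE (v : HeightOneSpectrum (𝓞 F)) (D a : F) : Prop :=
  a ≠ 0 ∧ ∃ u w s : v.adicCompletion F, (u ≠ 0 ∨ w ≠ 0 ∨ s ≠ 0) ∧
    w ^ 3 = (a : v.adicCompletion F) ^ 2 * u ^ 3 + (a : v.adicCompletion F) * (D : v.adicCompletion F) * s ^ 3

/-- `E_D(F)` is finite and the `3`-primary part of `Ш(E_D / F)` is trivial -/
def Triv (D : F) : Prop :=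
  Finite (ED D).toAffine.Point ∧ ∀ (n : ℕ) (x : Sha (ED D)), 3 ^ n • x = 0 → x = 0

end F

/-- JOB ELOC (uses `S_BAS`, `S_CPL`). Formal properties of the classes.
Proof.  `K = v.adicCompletion F`; `Lpw 3 v b` iff `b ≠ 0` is a cube in `K` (`S_CPL`).
(1) `b = β³`: from `(u, w, s)` for `a` the solution `(u / β², w, s / β)` for `a b`.  (2) `n = ν³`: `(u, w, s / ν)`.
(4) `a ↦ a⁻¹`: `(w, u, -s)` is a solution for `a⁻¹`; `a^n` is, up to the cube of an element of `F^*`, one of `1` (solution `(1, 1, 0)`), `a`, `a⁻¹`; use (1).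
(3) First `a ↦ a D²`: if `w = 0`: `a u³ = - D s³`, `s, u ≠ 0`, `a D² = (- D s / u)³` is a cube `α³` in `K`, solution `(1, α², 0)`.  If `s = 0`: `a = (a u / w)³`
is a cube `α³` in `K`, `a D² = D² α³`, solution `(0, D α, 1)` (`w³ = (a D²) D`).  If `u = 0`: `w³ = a D s³`, solution `(1, 0, s')` for `a D²` with
`(a D²)² + a D³ s'³ = 0`: `a D = (w / s)³`, so `s'³ = - a D = (- w / s)³`.  Otherwise let `s = 1` (divide by `s`): the solution
`(-1 / w, a D u / w, 1)` for `a D²`: `(a D²)² (-1 / w)³ + a D² D = a D³ (w³ - a D) / w³ = (a D u / w)³`.  Twice gives `a D⁴`, and `D⁻³` is a cube (1). -/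
def S_ELOC : Prop := ∀ (F : Type) [Field F] [NumberField F] (v : HeightOneSpectrum (𝓞 F)) (D : F), D ≠ 0 →
  (∀ a b, AE v D a → Lpw 3 v b → AE v D (a * b)) ∧
  (∀ n a, Lpw 3 v n → AE v D a → AE v (D * n) a) ∧
  (∀ a, AE v D a → AE v D (a * D)) ∧
  ∀ a, AE v D a → ∀ n : ℕ, AE v D (a ^ n)

/-- JOB EISO (uses `S_BAS`, `S_CPL`, `S_NRM`). The classes are isotropic for the Hilbert symbol.
Proof.  `K = v.adicCompletion F`.  If `a` or `c` is a local cube (`Lpw`) this is `Hilb.pow` (and `Hilb.anti`).  Let `(u, w, s)`, `(u', w', s')` be the solutions for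
`a`, `c`.  `s ≠ 0` (else `a = (a u / w)³`), `s' ≠ 0`; divide: `s = s' = 1`: `w³ = a² u³ + a D`, `w'³ = c² u'³ + c D`.  `M = AdjoinRoot (X³ - c)` over `K` is a field of degree `3`, `g` the root,
`g³ = c`; `N(α + β g + ε g²) = α³ + c β³ + c² ε³ - 3 c α β ε`.  `γ = u' g`, `δ = w' g² / c` (`= w' / g`), `δ³ - γ³ = D`, `X = γ δ = u' w'`.
(i) `N(δ - γ) = D`, so `t v D c = 0` (`S_NRM`).  (ii) If `u = 0` then `a D = w³`, `Lpw v (a D)`, `t v a c = - t v D c = 0`.
(iii) Let `u ≠ 0`; `y = a u³`, `x = u w`, `y² + D y = x³`.  Then `N(y + (δ - γ) x) = y³ + D x³ + 3 X y x² = y (x³ + 3 X x² + D²)` and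
`N(x + δ² + γ δ + γ²) = (x + X)³ + δ⁶ + γ⁶ - 3 (x + X) X² = x³ + 3 X x² + D²`.  This is not `0`: otherwise `x + X + (w'² / c) g + u'² g² = 0` in the field `M`
(`δ² = w'² g / c`), so `u' = w' = 0`, `D = 0`.  So `a = y / u³` is the norm of `(y + (δ - γ) x) / (u (x + δ² + γ δ + γ²))` and `t v a c = 0` by `S_NRM`. -/
def S_EISO : Prop := ∀ (F : Type) [Field F] [NumberField F] (ζ : F), IsPrimitiveRoot ζ 3 →
  ∀ t : HeightOneSpectrum (𝓞 F) → F → F → ZMod 3, Hilb 3 ζ t →
  ∀ (v : HeightOneSpectrum (𝓞 F)) (D a c : F), D ≠ 0 → AE v D a → AE v D c → t v a c = 0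

/-- JOB ISO (uses `S_BAS`, `S_LOCV`, `S_NDG`). Isotropic sets are small.
Proof.  Let `V` be the group `F^*` modulo `{b | Lpw p v b}` (a subgroup by `S_BAS`, containing the `p`-th powers), an `F_p`-vector space (write it additively), finite
with at most `p^(2 + dv)` elements (`S_LOCV`: a finite set of representatives), so `dim V ≤ 2 + dv`.  `t v` defines a bilinear form on `V` (`Hilb.mul`, `Hilb.anti`,
`Hilb.pow`), nondegenerate by `S_NDG`.  The classes of the `b ∈ B` span an isotropic subspace `W` (`t v` vanishes on all pairs), so `2 dim W ≤ dim V` (`W ⊆ W^⊥`,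
`dim W + dim W^⊥ = dim V`), and `#B ≤ #W = p^(dim W)`.  (Only one place `v` and a fixed `t` with values in `ZMod p`; the classes of `B` are different.) -/
def S_ISO : Prop := ∀ (p : ℕ) [Fact p.Prime], p ≠ 2 → ∀ (F : Type) [Field F] [NumberField F] (ζ : F),
  IsPrimitiveRoot ζ p → ∀ t : HeightOneSpectrum (𝓞 F) → F → F → ZMod p, Hilb p ζ t →
  ∀ (v : HeightOneSpectrum (𝓞 F)) (B : Finset F), (∀ b ∈ B, b ≠ 0) →
    (∀ b ∈ B, ∀ b' ∈ B, b ≠ b' → ¬ Lpw p v (b / b')) → (∀ b ∈ B, ∀ b' ∈ B, t v b b' = 0) →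
    B.card ≤ p ^ ((2 + dv p v) / 2)

/-- JOB ECOND (uses `S_BAS`, `S_CPL`). Locally solvable classes satisfy the conditions of the engine.
Proof.  `v ∤ 3`.  Compare the valuations of `w³`, `a² u³`, `a D s³` modulo `3`: `0`, `2 α`, `α + δ`, where `α = vl v a`, `δ = vl v D`.  If `δ = 0` and `α ≠ 0` the three are
different, so exactly one term (among the nonzero ones) has the largest absolute value: impossible.  If `δ ≠ 0`: `α = 0`: the third is different from the two others, so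
it is smaller than the maximum, `w³ = a² u³ (1 + small)`, `u, w ≠ 0`, `1 + small` is a cube (`v ∤ 3`, Hensel or `S_BAS` (6)), so `a² `, hence `a = a³ / a²`, is a cube in `K`:
`j = 0`.  `α = - δ`: the second is different from the others: `w³ = a D s³ (1 + small)`, `a D` is a cube: `j = 1`.  `α = δ`: the first is different:
`a² u³ = - a D s³ (1 + small)`, `a D⁻¹` and `a D²` are cubes: `j = 2`.  (`S_CPL`.) -/
def S_ECOND : Prop := ∀ (F : Type) [Field F] [NumberField F] (D a : F), D ≠ 0 →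
  (∀ v : HeightOneSpectrum (𝓞 F), AE v D a) → Cond 3 (AE (F := F)) D a

/-- JOB EKUM. From a locally trivial cocycle with values in the kernel of `√-3` to a class.
Proof.  `f` is a homomorphism `σ ↦ h(σ) T`, `h : Gal F → ZMod 3` locally constant (`T` is a rational point of order `3`, see `P + T` above).  Kummer theory: there is
`α ∈ F̄^*` with `σ α = ω^(h σ) α` for all `σ` (`α = ∑ ω^(- h σ) σ θ ≠ 0` over the cosets of `ker h`, for a suitable `θ`; or the fixed field of
`ker h` is `F` or cyclic of degree `3`), `a = α³ ∈ F^*`.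
Local solvability at `v`, `K = v.adicCompletion F`, `ι : F̄ → K̄`, `P` as in `LocTriv`: `τ P - P = ι(f σ)` if `τ ι = ι σ`; every `τ` belongs to some `σ`.
If `P ∈ {0, T, -T}` then all these `f σ = 0`, `ι(α)` is fixed by all `τ`, so it lies in `K` (`K` perfect), `a` is a cube in `K`: solution with `s = 0`.
Otherwise `P = (x, y)`, `x ≠ 0`; `γ = (y - ω D) / ((ω² - ω) x)`, `δ = (y - ω² D) / ((ω² - ω) x)` satisfy `δ³ - γ³ = D`, `γ(P + T) = ω γ(P)`, `δ(P + T) = ω² δ(P)`
(computation with the formula for `P + T`).  So `τ γ = ω^(h σ) γ`, `τ ι(α) = ω^(h σ) ι(α)`: `γ = u ι(α)`, `δ = w / ι(α)` with `u, w ∈ K`, `s = 1`.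
Last part: let `β³ = D`, `R1 = (- β², ω D)` (a point: `(ω D)² + D (ω D) = - D²`); `R1 + T = (- ω β², ω D)`, `3 R1 = 0` (the slope of the tangent is
`3 β⁴ / ((2 ω + 1) D)`, so `2 R1` has the same `x`-coordinate as `R1`, `2 R1 = - R1`).  If `σ β = ω^(b σ) β` then `σ R1 = R1 + 2 b(σ) T`.  If `a D^j = c³` then `α = ω^i c β^(-j)`, `h = - j b`, so `f σ = σ R - R` for
`R = j R1` (`2 = -1`). -/
def S_EKUM : Prop := ∀ (F : Type) [Field F] [NumberField F] (ω D : F), IsPrimitiveRoot ω 3 → D ≠ 0 →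
  ∀ f : Coch (ED D), IsShaCoc (ED D) f → (∀ σ, f σ = 0 ∨ ∃ y h, f σ = Affine.Point.some 0 y h) →
  ∃ a : F, (∀ v : HeightOneSpectrum (𝓞 F), AE v D a) ∧
    ∀ j : ℕ, IsPow 3 (a * D ^ j) → ∃ R : Pt (ED D) (AlgebraicClosure F), (3 : ℕ) • R = 0 ∧
      ∀ σ : Gal F, f σ = act (ED D) σ.toAlgHom R - R

/-- JOB EDD (pure algebra, any field of characteristic `0`). The endomorphisms `1 - ω` and `1 - ω²`.
Proof.  `[ω] : (x, y) ↦ (ω x, y)` is additive (addition formulas: the slopes are multiplied by `ω²`), `1 + [ω] + [ω²] = 0` (the three points `(x, y)`, `(ω x, y)`,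
`(ω² x, y)` lie on the line `Y = y`; or: for the group law).  `θ P = P - [ω] P`, `θ' P = P - [ω]² P`, `θ' θ = 1 - [ω] - [ω²] + 1 = 3`.  They commute with the
homomorphisms of fields.  `θ P = 0` iff `[ω] P = P` iff `P = 0` or `x = 0`.  Surjectivity over an algebraically closed field: it suffices that `3` is surjective (if a
library lemma is found), or directly: for `Q = (X, Y)`, `Y ≠ 0`, take `γ³ = Y`, `δ = X / γ`, `δ³ - γ³ = D`, `δ ≠ γ`, and `P = (x, y)`,
`x = - D / (δ - γ)`, `y = (ω² γ - ω δ) x`: `P` is on the curve and `θ P` or `θ (- P)`, `θ ([ω^i] P)` is `Q` up to an automorphism `± [ω^i]` (the automorphisms commute with `θ`);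
the points with `Y = 0`: `Q = T = -(-T)`, and `-T = (0, -D)`. Compare `Pool/Agent/Y715/T/Ell.lean` (`im`), `Pool/Agent/Y155/CT/Act.lean` (`dd`, `dd_surj`, `dd_ker`, `dd_dd`) for `D = 1`:
over an algebraically closed field `(x, y) ↦ (x / β², y / β³)`, `β³ = D`, is an isomorphism `E_D → E_1` and their lemmas can be transported. -/
def S_EDD : Prop := ∀ (F : Type) [Field F] [CharZero F] (ω D : F), IsPrimitiveRoot ω 3 → D ≠ 0 →
  ∃ θ θ' : ∀ (L : Type) [Field L] [Algebra F L], Pt (ED D) L →+ Pt (ED D) L,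
    (∀ (L : Type) [Field L] [Algebra F L] (P : Pt (ED D) L), θ' L (θ L P) = (3 : ℕ) • P ∧
      θ L (θ' L P) = (3 : ℕ) • P) ∧
    (∀ (L L' : Type) [Field L] [Algebra F L] [Field L'] [Algebra F L'] (φ : L →ₐ[F] L') (P : Pt (ED D) L),
      act (ED D) φ (θ L P) = θ L' (act (ED D) φ P) ∧ act (ED D) φ (θ' L P) = θ' L' (act (ED D) φ P)) ∧
    (∀ (L : Type) [Field L] [Algebra F L] (P : Pt (ED D) L),
      (θ L P = 0 → P = 0 ∨ ∃ y h, P = Affine.Point.some 0 y h) ∧
      (θ' L P = 0 → P = 0 ∨ ∃ y h, P = Affine.Point.some 0 y h)) ∧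
    ∀ (L : Type) [Field L] [Algebra F L], IsAlgClosed L → ∀ P : Pt (ED D) L,
      (∃ R, θ L R = P) ∧ ∃ R, θ' L R = P

/-- JOB ETRI (uses `S_EKUM`, `S_EDD`, `S_ECOND`). Triviality.
Proof.  (A) Let `f` be a Sha-cocycle (`IsShaCoc`) with values in `{0, (0, y)}`: by `S_EKUM` `a`, by `S_ECOND` `Cond 3 AE D a`, by hypothesis `IsPow 3 (a D^j)` for
some `j`, so `f σ = σ R - R` with `3 R = 0`.  (B) Let `f` be a Sha-cocycle and `θ f` a coboundary `σ P - P` (`θ` on the points over the algebraic closure; `θ f` is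
again a Sha-cocycle, since `θ` commutes with `act` and exists over the algebraic closures of the completions).  `P = θ R`, `g = f - (σ R - R)` is a Sha-cocycle
with values in the kernel of `θ`, so a coboundary by (A), and so is `f`.  The same for `θ'`.  So `3 f = θ' (θ f)` a coboundary implies `f` a coboundary, and by induction
the same for `3^n`: `Ш[3^∞] = 0`.  (C) `P ∈ E(F)` (the points fixed by the Galois group), `P = θ R`, `f σ = σ R - R` has values in the kernel of `θ` and is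
a Sha-cocycle (it is a coboundary), so by (A) `f σ = σ R' - R'`, `3 R' = 0`; `R - R' ∈ E(F)`, `P = θ (R - R') + θ R'`, `3 θ R' = 0`.  So `E(F) = θ E(F) + E(F)[3]`, the same for
`θ'`, and `E(F) = θ' θ E(F) + E(F)[3] = 3 E(F) + E(F)[3]`.  `E(F)` is finitely generated (`Pool.Agent.Q286.EQ.mordell_weil F W hΔ : AddGroup.FG`, see
`Pool/Agent/Q121/ESG/MQR.lean`; the discriminant is `- 27 D⁴`), so it is finite. -/
def S_ETRI : Prop := ∀ (F : Type) [Field F] [NumberField F] (ω D : F), IsPrimitiveRoot ω 3 → D ≠ 0 →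
  ¬ Bad 3 (AE (F := F)) D → Triv D

/-- JOB ESUM. The sum of the local degrees.  (`Ideal.sum_ramification_inertia_eq_finrank`; compare `Pool/Agent/Q7/LK/Sum.lean`, `finsum_cI`, and `Pool/Agent/Q285/LK/LOC.lean`;
`F` is totally complex: `tot_complex` in `Pool/Agent/Q7/LK/Fin2.lean`.) -/
def S_ESUM : Prop := ∀ (p : ℕ) [Fact p.Prime], p ≠ 2 → ∀ (F : Type) [Field F] [NumberField F] (ζ : F),
  IsPrimitiveRoot ζ p → ∑ᶠ v : HeightOneSpectrum (𝓞 F), dv p v / 2 ≤ InfinitePlace.nrComplexPlaces F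

/-- the main theorem -/
def S_EMAIN : Prop := ∀ (F : Type) [Field F] [NumberField F] (ω : F), IsPrimitiveRoot ω 3 → ∃ y0 : ℕ, ∀ y, y0 ≤ y →
  ∀ D0 : F, D0 ≠ 0 → ∀ ε : ℝ, 0 < ε →
  ∃ k0 : ℕ, ∀ k, k0 ≤ k → ∀ z : Fin k → ZMod 3, (∀ i, z i ≠ 0) → Nest k fun X =>
    (Box y X : Set (Fin k → HeightOneSpectrum (𝓞 F))).Finite ∧
    0 < ({q ∈ (Box y X : Set (Fin k → HeightOneSpectrum (𝓞 F))) | ∃ D, Fits 3 y D0 z q D}.ncard : ℝ) ∧
    (1 / 2 - ε) * ({q ∈ (Box y X : Set (Fin k → HeightOneSpectrum (𝓞 F))) | ∃ D, Fits 3 y D0 z q D}.ncard : ℝ) ≤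
      ({q ∈ (Box y X : Set (Fin k → HeightOneSpectrum (𝓞 F))) | (∃ D, Fits 3 y D0 z q D) ∧
        ∀ D, Fits 3 y D0 z q D → Triv D}.ncard : ℝ)

end Pool.Agent.Q7.CE
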