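import Pool.Agent.Q7.CE.Stm
import Pool.Agent.Q7.LK.Stm3

/-!
# Project CE (helper7), part 2: the mean of `√(3^rank #Ш[3])`

GOAL.  `F` any number field containing a primitive third root of unity, `E_D : y² + D y = x³`.  In the families of `S_EMAIN` the mean of
`√(3^(rank E_D(F)) · #Ш(E_D / F)[3])` is at most `2 + ε`; so the average rank is at most `1 + ε` (the rank is even, `3^s ≥ 1 + 2 s`).

Proof.  `V` = the locally trivial classes with values in the kernel `{0, T, -T}` of `θ`, modulo the coboundaries of points of order `3`; `#V - 1` is the number of the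
nontrivial classes `a` (`Many`), whose mean is at most `1` (`S_MEANM`); `3^rank · #Ш[3] ≤ (#V)²` (`S_ERS`).
-/

set_option autoImplicit false

namespace Pool.Agent.Q7.LK

open NumberField IsDedekindDomain Filter Topology Finset
open Pool.Agent.Q283.LQ (Sm Box Nest nS)

/-- JOB MEANM (uses `S_BASE`, `S_LOC`, `S_SH1`, `S_SH2M`, `S_EE`, `S_COUNT`, `S_NEST`).  The mean of the number of the classes.  Same proof as `S_SHAREM`
(`Pool/Agent/Q193/LK/Sharem.lean`), without the inequality of Markov: for a table `τ` with at most `S(τ)` nontrivial solutions every `q` with this table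
has `N q ≤ S(τ)` (`S_SH2M`), so `∑_(q ∈ B) N q ≤ ∑_τ S(τ) #{q ∈ Box : table τ}`, `#{q : table τ} ≤ (1 / #tables + ε') #Box` (`S_NEST`) and `∑_τ S(τ)` by `S_COUNT`. -/
def S_MEANM : Prop := ∀ (p : ℕ) [Fact p.Prime], p ≠ 2 → ∀ (F : Type) [Field F] [NumberField F] (ζ : F),
  IsPrimitiveRoot ζ p → ∃ y0 : ℕ, ∀ y, y0 ≤ y →
  ∀ (A : HeightOneSpectrum (𝓞 F) → F → F → Prop) (c : HeightOneSpectrum (𝓞 F) → ℕ), Loc p A c →
  ∀ D0 : F, D0 ≠ 0 → ∀ ε : ℝ, 0 < ε →
  ∃ k0 : ℕ, ∀ k, k0 ≤ k → ∀ z : Fin k → ZMod p, (∀ i, z i ≠ 0) → Nest k fun X =>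
    (Box y X : Set (Fin k → HeightOneSpectrum (𝓞 F))).Finite ∧
    0 < ({q ∈ (Box y X : Set (Fin k → HeightOneSpectrum (𝓞 F))) | ∃ D, Fits p y D0 z q D}.ncard : ℝ) ∧
    ∀ (B : Finset (Fin k → HeightOneSpectrum (𝓞 F))) (N : (Fin k → HeightOneSpectrum (𝓞 F)) → ℕ),
      (∀ q ∈ B, q ∈ (Box y X : Set (Fin k → HeightOneSpectrum (𝓞 F)))) →
      (∀ q ∈ B, N q ≠ 0 → ∃ D, Fits p y D0 z q D ∧ Many p A D (N q)) →
      ∑ q ∈ B, (N q : ℝ) ≤
        ((p : ℝ) ^ (∑ᶠ v, c v) * (1 / (p : ℝ)) ^ InfinitePlace.nrComplexPlaces F + ε) *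
          ({q ∈ (Box y X : Set (Fin k → HeightOneSpectrum (𝓞 F))) | ∃ D, Fits p y D0 z q D}.ncard : ℝ)

end Pool.Agent.Q7.LK

namespace Pool.Agent.Q7.CE

open NumberField IsDedekindDomain Filter Topology Finset WeierstrassCurve
open Pool.Agent.Q283.LQ (Sm Box Nest nS)
open Pool.Agent.Q7.LK
open Pool.Agent.TH841.SH.D (Coch Pt act Gal IsCoc IsCob LocTriv)
open Pool.Agent.TH841.NF.D (Sha IsShaCoc)

section F

variable {F : Type} [Field F] [NumberField F]

/-- locally trivial cocycles with values in `{0, T, -T}` -/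
def TCoc (D : F) (f : Coch (ED D)) : Prop :=
  IsShaCoc (ED D) f ∧ ∀ σ, f σ = 0 ∨ ∃ y h, f σ = Affine.Point.some 0 y h

/-- coboundaries of the points of order dividing `3` -/
def Cob3 (D : F) (f : Coch (ED D)) : Prop :=
  ∃ R : Pt (ED D) (AlgebraicClosure F), (3 : ℕ) • R = 0 ∧ ∀ σ : Gal F, f σ = act (ED D) σ.toAlgHom R - R

/-- among any `N + 1` locally trivial cocycles with values in `{0, T, -T}` two are equal up to coboundaries of points of order
dividing `3` -/
def Few (D : F) (N : ℕ) : Prop :=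
  ∀ f : Fin (N + 1) → Coch (ED D), (∀ i, TCoc D (f i)) → ∃ i i', i ≠ i' ∧ Cob3 D (f i - f i')

end F

/-- JOB EKUM2. Several cocycles.  Same proof as `S_EKUM` (`Pool/Agent/Q190/CE/EKUM.lean`, `EKA.lean`): the number `a i = α_i³`, where
`σ α_i = ω^(h_i σ) α_i`; if `a_i / a_i' * D^j` is a cube then, with `α_i / α_i'` in the place of `α`, `f_i - f_i'` is the coboundary of a point of order dividing `3`. -/
def S_EKUM2 : Prop := ∀ (F : Type) [Field F] [NumberField F] (ω D : F), IsPrimitiveRoot ω 3 → D ≠ 0 →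
  ∀ (n : ℕ) (f : Fin n → Coch (ED D)), (∀ i, TCoc D (f i)) →
  ∃ a : Fin n → F, (∀ i v, AE v D (a i)) ∧ (∀ i (j : ℕ), IsPow 3 (a i * D ^ j) → Cob3 D (f i)) ∧
    ∀ i i' (j : ℕ), IsPow 3 (a i / a i' * D ^ j) → Cob3 D (f i - f i')

/-- JOB EVB (uses `S_EKUM2`, `S_ECOND`). The number of the classes.
Proof.  The functions `f` with `TCoc D f` form a group killed by `3` (`T` is a point of order `3`, `{0, T, -T}` is a subgroup, the points with `x = 0`; `IsShaCoc` is closed
under sums); the `f` in it with `Cob3` are a subgroup; `V` the quotient, a vector space over `F_3` (or an elementary argument with a maximal independent system).  If `f`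
is a family with more than `3^(t-1)` pairwise different classes, then these classes span a space of dimension at least `t`; `g_1, .., g_t` independent, the
`3^t - 1` combinations `∑ c_i g_i`, `c ≠ 0`, with `S_EKUM2` and `S_ECOND` give `Many`. -/
def S_EVB : Prop := ∀ (F : Type) [Field F] [NumberField F] (ω D : F), IsPrimitiveRoot ω 3 → D ≠ 0 →
  ∀ s : ℕ, ¬ Many 3 (AE (F := F)) D (3 ^ (s + 1) - 1) → Few D (3 ^ s)

/-- JOB ERS (uses `S_EDD`). Ranks and `Ш[3]` (no number theory; `S_EDD` is proved in `Pool/Agent/Q285/CE/EDD.lean`; compare the proof of `S_ETRI`).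
Proof.  `M` = `E_D(F)` modulo torsion, free of finite rank `r` over `ℤ` (`Pool.Agent.Q286.EQ.mordell_weil`), `θ` and `θ'` act on it, `θ' θ = θ θ' = 3`, so they are
injective on `M` and `#(M / θ M) #(M / θ' M) = #(M / 3 M) = 3^r`.  `P ∈ E_D(F)`, `P = θ R` over the algebraic closure, `f_P(σ) = σ R - R` has values in the kernel of `θ`,
which is `{0, T, -T}`, and is a Sha-cocycle (a coboundary).  An element `x ∈ Ш` with `θ x = 0` has a representative `g_x` with values in the kernel of `θ`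
(`θ f = ∂ P`, `P = θ R`, `g = f - ∂ R`).  The `f_P + g_x`, `P` running through representatives of `M / θ M` (lifted to `E_D(F)`), `x` through `Ш[θ]` (or any finite set of
elements), are pairwise different up to `Cob3`: if `f_P + g_x - f_P' - g_x' = ∂ R'`, `3 R' = 0`, then `x = x'`, and `R_P - R_P' - R'` is rational, so `P - P' ∈ θ E(F) + torsion`.
So `#(M / θ M) #Ш[θ] ≤ N` (in particular `Ш[θ]` is finite).  The same for `θ'` (kernel `{0, T, -T}` too).  `#Ш[3] ≤ #Ш[θ] #Ш[θ']` (`x ↦ θ x` has kernel `Ш[θ]` and values in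
`Ш[θ']`).  Multiply. -/
def S_ERS : Prop := ∀ (F : Type) [Field F] [NumberField F] (ω D : F), IsPrimitiveRoot ω 3 → D ≠ 0 →
  ∀ N : ℕ, Few D N → Finite {x : Sha (ED D) // (3 : ℕ) • x = 0} ∧
    3 ^ Module.finrank ℤ (Pt (ED D) F) * Nat.card {x : Sha (ED D) // (3 : ℕ) • x = 0} ≤ N ^ 2

end Pool.Agent.Q7.CE
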