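import Pool.Agent.Q7.CE.Stm

/-!
# Project CE (helper7), part 3: the 3-adic closure of `E_D(F)`

GOAL.  `F` any number field containing a primitive third root of unity, `E_D : y² + D y = x³`, `S` any set of places of `F` above `3`,
`N` the sum of the `[F_v : ℚ_3] / 2`, `v ∈ S`.  For a share of at least `1 - 3^(-N) / 2 - ε` of the `D` of every family of `S_EMAIN` the points of `E_D(F)` which are
independent over `ℤ` are independent over `ℤ_3` in the product of the `E_D(F_v)`, `v ∈ S` (`Indep`): an analogue of Leopoldt's conjecture.  (`S` empty: `S_EMAIN`.)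

Proof.  A relation gives a point `Q ∈ E_D(F)`, not in `θ E_D(F)` + torsion, which is in `θ E_D(F_v)` + torsion for `v ∈ S` (`S_FS1`).  Its class `a = y(Q)` in `F^*` modulo
cubes satisfies the conditions of the engine of project LK with the classes of the torsion points of `E_D(F_v)`, at most `3`, at `v ∈ S`.
-/

set_option autoImplicit false

namespace Pool.Agent.Q7.CE

open NumberField IsDedekindDomain Filter Topology Finset WeierstrassCurve
open Pool.Agent.Q283.LQ (Sm Box Nest nS)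
open Pool.Agent.Q7.LK
open Pool.Agent.TH841.SH.D (Pt act)

/-- the class modulo cubes of the point `P` of `E_D(L)` is that of `a`: the class of `0` is `1`, that of `(0, 0)` is `D⁻¹`, that of `(x, y)`, `y ≠ 0`, is `y` -/
def Cls {F : Type} [Field F] (D : F) (L : Type) [Field L] [Algebra F L] (P : Pt (ED D) L) (a : L) : Prop :=
  a ≠ 0 ∧ ((P = 0 ∧ ∃ s : L, a = s ^ 3) ∨
    ((∃ h, P = Affine.Point.some 0 0 h) ∧ ∃ s : L, a * algebraMap F L D = s ^ 3) ∨
    ∃ (x y : L) (h : ((ED D).baseChange L).toAffine.Nonsingular x y) (s : L),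
      P = Affine.Point.some x y h ∧ y ≠ 0 ∧ s ≠ 0 ∧ a = y * s ^ 3)

/-- the classes of the torsion points of `E_D(F_v)` -/
def ATo {F : Type} [Field F] [NumberField F] (v : HeightOneSpectrum (𝓞 F)) (D a : F) : Prop :=
  a ≠ 0 ∧ ∃ P : Pt (ED D) (v.adicCompletion F), IsOfFinAddOrder P ∧ Cls D (v.adicCompletion F) P (a : v.adicCompletion F)

/-- the local conditions: at the places of `S` the classes of the torsion points, at the others all classes -/
def AS {F : Type} [Field F] [NumberField F] (S : Set (HeightOneSpectrum (𝓞 F))) (v : HeightOneSpectrum (𝓞 F)) (D a : F) : Prop :=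
  (v ∈ S → ATo v D a) ∧ (v ∉ S → AE v D a)

open Classical in
/-- the bound of the number of the local classes -/
noncomputable def cS {F : Type} [Field F] [NumberField F] (S : Set (HeightOneSpectrum (𝓞 F))) (v : HeightOneSpectrum (𝓞 F)) : ℕ :=
  if v ∈ S then 0 else dv 3 v / 2

/-- points of `E_D(F)` which are independent over `ℤ` are independent over `ℤ_3` in the product of the `E_D(F_v)`, `v ∈ S`: if for all `n` the combinations
`∑ m_i P_i` with integers `m_i ≡ a_i` modulo `3^n` are divisible by `3^n` in `E_D(F_v)`, for all `v ∈ S`, then `a = 0` -/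
def Indep {F : Type} [Field F] [NumberField F] (S : Set (HeightOneSpectrum (𝓞 F))) (D : F) : Prop :=
  ∀ (r : ℕ) (P : Fin r → Pt (ED D) F), (∀ c : Fin r → ℤ, IsOfFinAddOrder (∑ i, c i • P i) → c = 0) →
  ∀ a : Fin r → ℤ_[3], (∀ v ∈ S, ∀ n : ℕ, ∃ m : Fin r → ℤ, (∀ i, (3 : ℤ_[3]) ^ n ∣ (m i : ℤ_[3]) - a i) ∧
    ∃ R : Pt (ED D) (v.adicCompletion F), ∑ i, m i • act (ED D) (Algebra.ofId F (v.adicCompletion F)) (P i) = (3 ^ n : ℕ) • R) →
  a = 0

/-- JOB FEND (pure algebra). The endomorphism `1 - ω` and the classes of the points.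
Proof.  `θ`, `θ'` as in `Pool/Agent/Q285/CE/EDD.lean` (`edd`, first four properties).  `θ θ P = (1 - ω)² P = - 3 ω P`.  Classes: (a) clear for existence; two values of the
class of `P` differ by a cube.  (b) additivity: `P = (x₁, y₁)`, `Q = (x₂, y₂)`, `- (P + Q) = (x₃, y₃)` on a line `y = l x + m`: `x³ - (l x + m)² - D (l x + m)` has the zeros `x_i`, and with
`x = (y - m) / l` the product of the `y_i` is `m³` (`l ≠ 0`; for `l = 0`: `y₁ = y₂ = y₃`); `y(-P) = - y - D` and `y (y + D) = x³`; the special points `(0, 0)`, `(0, -D)`.  (c) kernel: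
`θ(x, y) = (X, Y)` has `Y` a cube (explicit formula, see `surj_im` in `EllD.lean`); conversely `Y = γ³ ≠ 0`: `δ = X / γ`, `δ³ - γ³ = D`, `P = (x, y)` with `x = - D / (δ - γ)`,
`y = (ω² γ - ω δ) x` as in the docstring of `S_EDD`; `(0, 0)` with `D` a cube: `(0, 0) = - (0, - D)`, `- D = γ³`. -/
def S_FEND : Prop := ∀ (F : Type) [Field F] [CharZero F] (ω D : F), IsPrimitiveRoot ω 3 → D ≠ 0 →
  ∃ θ θ' : ∀ (L : Type) [Field L] [Algebra F L], Pt (ED D) L →+ Pt (ED D) L,
    (∀ (L : Type) [Field L] [Algebra F L] (P : Pt (ED D) L), θ' L (θ L P) = (3 : ℕ) • P ∧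
      θ L (θ' L P) = (3 : ℕ) • P ∧ ∃ P' : Pt (ED D) L, θ L (θ L P) = (3 : ℕ) • P') ∧
    (∀ (L L' : Type) [Field L] [Algebra F L] [Field L'] [Algebra F L'] (φ : L →ₐ[F] L') (P : Pt (ED D) L),
      act (ED D) φ (θ L P) = θ L' (act (ED D) φ P)) ∧
    (∀ (L : Type) [Field L] [Algebra F L] (P : Pt (ED D) L), θ L P = 0 → P = 0 ∨ ∃ y h, P = Affine.Point.some 0 y h) ∧
    (∀ (L : Type) [Field L] [Algebra F L] (P : Pt (ED D) L), (∃ a, Cls D L P a) ∧
      (∀ a s : L, Cls D L P a → s ≠ 0 → Cls D L P (a * s ^ 3)) ∧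
      (∀ a b : L, Cls D L P a → Cls D L P b → ∃ s : L, s ≠ 0 ∧ b = a * s ^ 3) ∧
      (∀ (Q : Pt (ED D) L) (a b : L), Cls D L P a → Cls D L Q b → Cls D L (P + Q) (a * b)) ∧
      (∀ s : L, s ≠ 0 → (Cls D L P (s ^ 3) ↔ ∃ R, P = θ L R))) ∧
    ∀ (L L' : Type) [Field L] [Algebra F L] [Field L'] [Algebra F L'] (φ : L →ₐ[F] L') (P : Pt (ED D) L) (a : L),
      Cls D L P a → Cls D L' (act (ED D) φ P) (φ a)

/-- JOB FLOC (uses `S_BAS`, `S_CPL`, `S_FEND`). `AS` has the properties of `Loc` (the part `v ∉ S` is the hypothesis).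
Proof.  `v ∈ S`, `K = v.adicCompletion F`, `Lpw 3 v b` iff `b ≠ 0` is a cube in `K`.  `mul`: clear.  `inv`: `n = ν³`, the isomorphism `(x, y) ↦ (ν² x, ν³ y)` from `E_D(K)` to `E_(D n)(K)`
(a homomorphism: addition formulas, compare `im` in `EllD.lean`; or the finite order by `Cls` and induction), it maps torsion points to torsion points, classes to classes.
`clo`: add the point `(0, - D)` of order `3` and class `- D`, which is `D` up to a cube.  `pow`: `n P`.  `num`: let `P_b`, `b ∈ B`, be torsion points of class `b`; the subgroup `G` generated by the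
`P_b` and the `θ P_b` is finite and stable under `θ` (`θ θ P = - 3 ω P`; better: take the subgroup generated by the `P_b` and `ω P_b`, or `G` = the points killed by `n` for a suitable `n`,
which is finite and stable under every endomorphism); `#(G / θ G) = #(ker θ on G) ≤ 3`; `b ↦ P_b` modulo `θ G` is injective by `S_FEND` (additivity and kernel).  `zero`: `dv 3 v = 0` for
`v ∤ 3`. -/
def S_FLOC : Prop := ∀ (F : Type) [Field F] [NumberField F] (ω : F), IsPrimitiveRoot ω 3 →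
  Loc 3 (AE (F := F)) (fun v => dv 3 v / 2) → ∀ S : Set (HeightOneSpectrum (𝓞 F)), Loc 3 (AS S) (cS S)

/-- JOB FS1 (pure algebra). From a relation to a point.
Proof.  `M` modulo torsion is free with basis `e_1, .., e_m`; `M_3 = ℤ_3^m` with the endomorphism `θ`; `R_c` = the `b ∈ ℤ_3^m` such that for all `v` and `n` the element
`3^c ∑ m_j e_j` (lifts to `M`) is divisible by `3^n` in `N v`, for some (equivalently all) integers `m_j ≡ b_j` modulo `3^n`; `R' = ∪_c R_c` is a submodule, stable under `θ`, and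
saturated for `θ`: if `θ b ∈ R'` then `3 b = θ' θ b ∈ R'`, `b ∈ R'`.  The vector `a` gives a nonzero element of `R'`.  If `R' = θ R'` then `R' = θ θ R' ⊆ 3 R'`, so `R' = 0` (finitely
generated over `ℤ_3`).  Choose `b ∈ R'`, `b ∉ θ R'`, so `b ∉ θ M_3`; `b ∈ R_c`; `n > c + 1`, integers `m_j ≡ b_j` modulo `3^n`, `Q = ∑ m_j e_j`.  If `Q = θ S + τ` then `b ∈ θ M_3 + 3^n M_3 = θ M_3`.  `3^c Q =
3^n R'` in `N v`, so `Q = 3^(n - c) R' + τ`, `3^c τ = 0`, and `3^(n-c) R'` is in the image of `θ`. -/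
def S_FS1 : Prop := ∀ (M : Type) [AddCommGroup M], Module.Finite ℤ M → ∀ θ θ' : M →+ M,
  (∀ x, θ' (θ x) = (3 : ℕ) • x ∧ θ (θ' x) = (3 : ℕ) • x ∧ ∃ y, θ (θ x) = (3 : ℕ) • y) →
  ∀ (ι : Type) (N : ι → Type) [∀ v, AddCommGroup (N v)] (θN θN' : ∀ v, N v →+ N v) (loc : ∀ v, M →+ N v),
  (∀ v x, loc v (θ x) = θN v (loc v x)) → (∀ v x, θN v (θN' v x) = (3 : ℕ) • x) →
  ∀ (r : ℕ) (P : Fin r → M), (∀ c : Fin r → ℤ, IsOfFinAddOrder (∑ i, c i • P i) → c = 0) →
  ∀ a : Fin r → ℤ_[3], a ≠ 0 → (∀ v, ∀ n : ℕ, ∃ m : Fin r → ℤ, (∀ i, (3 : ℤ_[3]) ^ n ∣ (m i : ℤ_[3]) - a i) ∧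
    ∃ R : N v, ∑ i, m i • loc v (P i) = (3 ^ n : ℕ) • R) →
  ∃ Q : M, (∀ x τ, IsOfFinAddOrder τ → Q ≠ θ x + τ) ∧ ∀ v, ∃ x τ, IsOfFinAddOrder τ ∧ loc v Q = θN v x + τ

/-- JOB FS2 (uses `S_FEND`, `S_FS1`, `S_ECOND`). Independence.
Proof.  If `Indep S D` fails, `S_FS1` (for `M = E_D(F)`, finitely generated by `Pool.Agent.Q286.EQ.mordell_weil`, see `S_ERS`, and `N v = E_D(F_v)`, `v ∈ S`) gives `Q`; let `a ∈ F^*` be a class
of `Q` over `F`.  `AE v D a` for all `v`: from a point `(x, y)` of class `a = y s³` the solution `(1 / s, x / 1, ..)` of `w³ = a² u³ + a D t³`: for `a = y` it is `(1, x, 1)`; for `s` see `S_ELOC` (1); for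
`(0, 0)`: `a D = s³`, `(0, s, 1)`; for `0`: `a = s³`, `(1, s², 0)`.  So `Cond` (`S_ECOND`, which says `Cond 3 AE D a`; at the places `v ∣ 3`, `v ∈ S`: `loc Q = θ x + τ`, so the class of
`τ` is `a`, `ATo v D a`).  If `a D^j` is a cube, then it is the class of `Q + j (0, - D)`, which is `θ R`: contradiction. -/
def S_FS2 : Prop := ∀ (F : Type) [Field F] [NumberField F] (ω D : F), IsPrimitiveRoot ω 3 → D ≠ 0 →
  ∀ S : Set (HeightOneSpectrum (𝓞 F)), (∀ v ∈ S, Dp 3 v) → ¬ Bad 3 (AS S) D → Indep S D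

end Pool.Agent.Q7.CE
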