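import Pool.Agent.Q7.LK.Main2
import Pool.Agent.Q7.CE.Stm

/-!
# Project CE (helper7): assembly
-/

set_option autoImplicit false

namespace Pool.Agent.Q7.CE

open NumberField IsDedekindDomain Filter Topology Finset WeierstrassCurve
open Pool.Agent.Q283.LQ (Sm Box Nest nS)
open Pool.Agent.Q7.LK

/-- `AE` has the properties of `Loc` -/
theorem ael (hloc : S_ELOC) (hhs : S_HS2) (heiso : S_EISO) (hiso : S_ISO) (F : Type) [Field F] [NumberField F]
    (ω : F) (hω : IsPrimitiveRoot ω 3) : Loc 3 (AE (F := F)) (fun v => dv 3 v / 2) := by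
  refine ⟨?_, ?_, ?_, ?_, ?_, ?_, ?_⟩
  · intro v D a _ _ h
    exact h.1
  · intro v D a b _ hD h hb
    exact (hloc F v D hD).1 a b h hb
  · intro v D n a _ hD hn h
    exact (hloc F v D hD).2.1 n a hn h
  · intro v D a _ hD h
    exact (hloc F v D hD).2.2.1 a h
  · intro v D a _ hD h n
    exact (hloc F v D hD).2.2.2 a h n
  · intro v D _ hD B hB hB2
    obtain ⟨t, h1, h2, h3, h4, h5, h6⟩ := hhs 3 (by norm_num) F ω hω
    have ht : Hilb 3 ω t := ⟨h1, h2, h3, h4, h5, h6⟩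
    have h := hiso 3 (by norm_num) F ω hω t ht v B (fun b hb => (hB b hb).1) hB2
      (fun b hb b' hb' => heiso F ω hω t ht v D b b' hD (hB b hb) (hB b' hb'))
    have h7 : (2 + dv 3 v) / 2 = dv 3 v / 2 + 1 := by omega
    rw [h7] at h
    exact h
  · intro v hv
    unfold dv
    rw [if_neg hv]

/-- the mean of the number of the nontrivial classes is at most `1` -/
theorem mu_le (hsum : S_ESUM) (F : Type) [Field F] [NumberField F] (ω : F) (hω : IsPrimitiveRoot ω 3) :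
    (((3 : ℕ) : ℝ) ^ (∑ᶠ v : HeightOneSpectrum (𝓞 F), dv 3 v / 2) *
      (1 / ((3 : ℕ) : ℝ)) ^ InfinitePlace.nrComplexPlaces F) ≤ 1 := by
  have h1 := hsum 3 (by norm_num) F ω hω
  have h2 : ((3 : ℕ) : ℝ) ^ (∑ᶠ v : HeightOneSpectrum (𝓞 F), dv 3 v / 2) ≤
      ((3 : ℕ) : ℝ) ^ InfinitePlace.nrComplexPlaces F := pow_le_pow_right₀ (by norm_num) h1
  calc _ ≤ ((3 : ℕ) : ℝ) ^ InfinitePlace.nrComplexPlaces F *
      (1 / ((3 : ℕ) : ℝ)) ^ InfinitePlace.nrComplexPlaces F :=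
        mul_le_mul_of_nonneg_right h2 (by positivity)
    _ = 1 := by rw [← mul_pow, mul_one_div_cancel (by norm_num), one_pow]

theorem emain (hshare : S_SHARE) (hloc : S_ELOC) (hhs : S_HS2) (heiso : S_EISO) (hiso : S_ISO) (hsum : S_ESUM)
    (htri : S_ETRI) : S_EMAIN := by
  intro F _ _ ω hω
  obtain ⟨y0, hy0⟩ := hshare 3 (by norm_num) F ω hω
  refine ⟨y0, fun y hy D0 hD0 ε hε => ?_⟩
  obtain ⟨k0, hk0⟩ := hy0 y hy (AE (F := F)) (fun v => dv 3 v / 2) (ael hloc hhs heiso hiso F ω hω) D0 hD0 ε hε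
  refine ⟨k0, fun k hk z hz => nest_mono k _ _ (fun X hX => ?_) (hk0 k hk z hz)⟩
  obtain ⟨hfin, hpos, hN⟩ := hX
  refine ⟨hfin, hpos, ?_⟩
  set T : Set (Fin k → HeightOneSpectrum (𝓞 F)) :=
    {q ∈ (Box y X : Set (Fin k → HeightOneSpectrum (𝓞 F))) | ∃ D, Fits 3 y D0 z q D} with hT
  set G : Set (Fin k → HeightOneSpectrum (𝓞 F)) :=
    {q ∈ (Box y X : Set (Fin k → HeightOneSpectrum (𝓞 F))) | (∃ D, Fits 3 y D0 z q D) ∧
      ∀ D, Fits 3 y D0 z q D → Triv D} with hG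
  set B : Set (Fin k → HeightOneSpectrum (𝓞 F)) :=
    {q ∈ (Box y X : Set (Fin k → HeightOneSpectrum (𝓞 F))) | ∃ D, Fits 3 y D0 z q D ∧
      Bad 3 (AE (F := F)) D} with hB
  have hcov : T ⊆ G ∪ B := by
    intro q hq
    by_cases hg : q ∈ G
    · exact Or.inl hg
    · right
      rw [hG] at hg
      simp only [Set.mem_ofPred_eq, not_and, not_forall] at hg
      obtain ⟨D, hD, hns⟩ := hg hq.1 hq.2
      refine ⟨hq.1, D, hD, ?_⟩
      by_contra hbad
      exact hns (htri F ω D hω hD.ne hbad)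
  have hGf : G.Finite := hfin.subset fun q hq => hq.1
  have hBf : B.Finite := hfin.subset fun q hq => hq.1
  have h2 : (T.ncard : ℝ) ≤ G.ncard + B.ncard := by
    exact_mod_cast le_trans (Set.ncard_le_ncard hcov (hGf.union hBf)) (Set.ncard_union_le G B)
  have h3 : (((3 : ℕ) : ℝ) ^ (∑ᶠ v : HeightOneSpectrum (𝓞 F), dv 3 v / 2) *
      (1 / ((3 : ℕ) : ℝ)) ^ InfinitePlace.nrComplexPlaces F / (((3 : ℕ) : ℝ) - 1) + ε) ≤ 1 / 2 + ε := by
    have h4 := mu_le hsum F ω hω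
    have h5 : (((3 : ℕ) : ℝ) - 1) = 2 := by norm_num
    rw [h5]
    linarith
  have h6 : (B.ncard : ℝ) ≤ (1 / 2 + ε) * T.ncard := by
    refine le_trans hN (mul_le_mul_of_nonneg_right ?_ (by positivity))
    exact h3
  linarith

end Pool.Agent.Q7.CE
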