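import Pool.Agent.Q7.LK.All2
import Pool.Agent.Q7.CE.Main
import Pool.Agent.Q190.CE.ISO
import Pool.Agent.Q190.CE.EISO
import Pool.Agent.Q190.CE.EKUM
import Pool.Agent.Q285.CE.EDD
import Pool.Agent.Q285.CE.ELOC
import Pool.Agent.Q285.CE.ECOND
import Pool.Agent.Q285.CE.ESUM
import Pool.Agent.Q285.CE.ETRI

/-!
# Project CE: all parts together
-/

set_option autoImplicit false

namespace Pool.Agent.Q7.CE

open Pool.Agent.Q7.LK

theorem t_ELOC : S_ELOC := Pool.Agent.Q285.CE.eloc t_BAS t_CPL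
theorem t_EISO : S_EISO := Pool.Agent.Q190.CE.eiso t_BAS t_CPL t_NRM
theorem t_ISO : S_ISO := Pool.Agent.Q190.CE.iso t_BAS t_LOCV t_NDG
theorem t_ECOND : S_ECOND := Pool.Agent.Q285.CE.econd t_BAS t_CPL
theorem t_EKUM : S_EKUM := Pool.Agent.Q190.CE.ekum
theorem t_EDD : S_EDD := Pool.Agent.Q285.CE.edd
theorem t_ETRI : S_ETRI := Pool.Agent.Q285.CE.etri t_EKUM t_EDD t_ECOND
theorem t_ESUM : S_ESUM := Pool.Agent.Q285.CE.esum
theorem t_EMAIN : S_EMAIN := emain t_SHARE t_ELOC t_HS2 t_EISO t_ISO t_ESUM t_ETRI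

end Pool.Agent.Q7.CE
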