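import Pool.Agent.Q7.CE.Main
import Pool.Agent.Q7.CE.Stm2

/-!
# Project CE, part 2 (helper7): assembly
-/

set_option autoImplicit false

namespace Pool.Agent.Q7.CE

open NumberField IsDedekindDomain Filter Topology Finset WeierstrassCurve
open Pool.Agent.Q283.LQ (Sm Box Nest nS)
open Pool.Agent.Q7.LK
open Pool.Agent.TH841.SH.D (Pt)
open Pool.Agent.TH841.NF.D (Sha)

/-- the number of the elements of `Ш(E_D / F)[3]` -/
noncomputable def sh3 {F : Type} [Field F] [NumberField F] (D : F) : ℕ :=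
  Nat.card {x : Sha (ED D) // (3 : ℕ) • x = 0}

/-- the rank of `E_D(F)` -/
noncomputable def rk {F : Type} [Field F] [NumberField F] (D : F) : ℕ := Module.finrank ℤ (Pt (ED D) F)

/-- the mean theorem -/
def S_EMEAN : Prop := ∀ (F : Type) [Field F] [NumberField F] (ω : F), IsPrimitiveRoot ω 3 → ∃ y0 : ℕ, ∀ y, y0 ≤ y →
  ∀ D0 : F, D0 ≠ 0 → ∀ ε : ℝ, 0 < ε →
  ∃ k0 : ℕ, ∀ k, k0 ≤ k → ∀ z : Fin k → ZMod 3, (∀ i, z i ≠ 0) → Nest k fun X =>
    (Box y X : Set (Fin k → HeightOneSpectrum (𝓞 F))).Finite ∧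
    0 < ({q ∈ (Box y X : Set (Fin k → HeightOneSpectrum (𝓞 F))) | ∃ D, Fits 3 y D0 z q D}.ncard : ℝ) ∧
    ∀ (T : Finset (Fin k → HeightOneSpectrum (𝓞 F))) (D : (Fin k → HeightOneSpectrum (𝓞 F)) → F),
      (∀ q, q ∈ T ↔ q ∈ (Box y X : Set (Fin k → HeightOneSpectrum (𝓞 F))) ∧ ∃ D, Fits 3 y D0 z q D) →
      (∀ q ∈ T, Fits 3 y D0 z q (D q)) →
      (∀ q ∈ T, Finite {x : Sha (ED (D q)) // (3 : ℕ) • x = 0}) ∧
      ∑ q ∈ T, Real.sqrt (3 ^ rk (D q) * sh3 (D q)) ≤ (2 + ε) * T.card ∧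
      ∑ q ∈ T, (rk (D q) : ℝ) ≤ (1 + ε) * T.card

theorem emean (hmean : S_MEANM) (hloc : S_ELOC) (hhs : S_HS2) (heiso : S_EISO) (hiso : S_ISO) (hsum : S_ESUM)
    (hevb : S_EVB) (hers : S_ERS) : S_EMEAN := by
  classical
  intro F _ _ ω hω
  obtain ⟨y0, hy0⟩ := hmean 3 (by norm_num) F ω hω
  refine ⟨y0, fun y hy D0 hD0 ε hε => ?_⟩
  obtain ⟨k0, hk0⟩ := hy0 y hy (AE (F := F)) (fun v => dv 3 v / 2) (ael hloc hhs heiso hiso F ω hω) D0 hD0 ε hε
  refine ⟨k0, fun k hk z hz => nest_mono k _ _ (fun X hX => ?_) (hk0 k hk z hz)⟩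
  obtain ⟨hfin, hpos, hN⟩ := hX
  refine ⟨hfin, hpos, fun T D hT hD => ?_⟩
  have hTcard : ({q ∈ (Box y X : Set (Fin k → HeightOneSpectrum (𝓞 F))) | ∃ D, Fits 3 y D0 z q D}.ncard : ℝ) =
      T.card := by
    have : {q ∈ (Box y X : Set (Fin k → HeightOneSpectrum (𝓞 F))) | ∃ D, Fits 3 y D0 z q D} = ↑T := by
      ext q
      rw [Finset.mem_coe, hT q]
      rfl
    rw [this, Set.ncard_coe_finset]
  rw [hTcard] at hN
  have hmu : ((3 : ℕ) : ℝ) ^ (∑ᶠ v : HeightOneSpectrum (𝓞 F), dv 3 v / 2) *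
      (1 / ((3 : ℕ) : ℝ)) ^ InfinitePlace.nrComplexPlaces F + ε ≤ 1 + ε := by
    have := mu_le hsum F ω hω
    linarith
  have hN' : ∀ (B : Finset (Fin k → HeightOneSpectrum (𝓞 F))) (N : (Fin k → HeightOneSpectrum (𝓞 F)) → ℕ),
      (∀ q ∈ B, q ∈ T) → (∀ q ∈ B, N q ≠ 0 → Many 3 (AE (F := F)) (D q) (N q)) →
      ∑ q ∈ B, (N q : ℝ) ≤ (1 + ε) * T.card := by
    intro B N hB hM
    refine le_trans (hN B N (fun q hq => ((hT q).1 (hB q hq)).1) (fun q hq h0 => ⟨D q, hD q (hB q hq), hM q hq h0⟩)) ?_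
    exact mul_le_mul_of_nonneg_right hmu (by positivity)
  -- the largest number of independent classes
  have hbd : ∀ q ∈ T, ∃ s : ℕ, (s ≠ 0 → Many 3 (AE (F := F)) (D q) (3 ^ s - 1)) ∧
      ¬ Many 3 (AE (F := F)) (D q) (3 ^ (s + 1) - 1) := by
    intro q hq
    by_contra hcon
    push Not at hcon
    have hall : ∀ s : ℕ, s ≠ 0 → Many 3 (AE (F := F)) (D q) (3 ^ s - 1) := by
      intro s
      induction s with
      | zero => intro h; exact absurd rfl h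
      | succ s ih =>
        intro _
        by_cases hs : s = 0
        · exact hcon s (fun h => absurd hs h)
        · exact hcon s (fun _ => ih hs)
    obtain ⟨n, hn⟩ := exists_nat_gt ((1 + ε) * (T.card : ℝ))
    have h1 := hN' {q} (fun _ => 3 ^ (n + 1) - 1) (by simpa using hq) (by
      intro q' hq' _
      rw [Finset.mem_singleton] at hq'
      rw [hq']
      exact hall (n + 1) (Nat.succ_ne_zero n))
    rw [Finset.sum_singleton] at h1
    have h2 : n ≤ 3 ^ (n + 1) - 1 := by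
      have : n + 1 < 3 ^ (n + 1) := Nat.lt_pow_self (by norm_num)
      omega
    have h3 : (n : ℝ) ≤ ((3 ^ (n + 1) - 1 : ℕ) : ℝ) := by exact_mod_cast h2
    linarith
  choose! s hs1 hs2 using hbd
  have hfew : ∀ q ∈ T, Finite {x : Sha (ED (D q)) // (3 : ℕ) • x = 0} ∧
      3 ^ rk (D q) * sh3 (D q) ≤ (3 ^ s q) ^ 2 := by
    intro q hq
    exact hers F ω (D q) hω (hD q hq).ne (3 ^ s q) (hevb F ω (D q) hω (hD q hq).ne (s q) (hs2 q hq))
  have hsum1 : ∑ q ∈ T, ((3 : ℝ) ^ s q - 1) ≤ (1 + ε) * T.card := by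
    have h1 := hN' T (fun q => 3 ^ s q - 1) (fun q hq => hq) (by
      intro q hq h0
      refine hs1 q hq ?_
      intro h
      apply h0
      simp only [h, pow_zero, le_refl, Nat.sub_self])
    refine le_trans (le_of_eq (Finset.sum_congr rfl fun q _ => ?_)) h1
    rw [Nat.cast_sub (Nat.one_le_pow _ _ (by norm_num))]
    push_cast
    ring
  have h3s : ∀ n : ℕ, (1 : ℝ) + 2 * n ≤ 3 ^ n := by
    intro n
    have := one_add_mul_le_pow (a := (2 : ℝ)) (by norm_num) n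
    calc (1 : ℝ) + 2 * n = 1 + (n : ℝ) * 2 := by ring
      _ ≤ (1 + 2) ^ n := this
      _ = 3 ^ n := by norm_num
  have hrk : ∀ q ∈ T, (rk (D q) : ℝ) ≤ (3 : ℝ) ^ s q - 1 := by
    intro q hq
    obtain ⟨hf, h1⟩ := hfew q hq
    have h2 : 1 ≤ sh3 (D q) := by
      unfold sh3
      have : Nonempty {x : Sha (ED (D q)) // (3 : ℕ) • x = 0} := ⟨⟨0, smul_zero _⟩⟩
      exact Nat.card_pos
    have h4 : 3 ^ rk (D q) ≤ 3 ^ (2 * s q) := by
      calc 3 ^ rk (D q) ≤ 3 ^ rk (D q) * sh3 (D q) := Nat.le_mul_of_pos_right _ h2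
        _ ≤ (3 ^ s q) ^ 2 := h1
        _ = 3 ^ (2 * s q) := by rw [← pow_mul, mul_comm]
    have h5 : rk (D q) ≤ 2 * s q := (Nat.pow_le_pow_iff_right (by norm_num)).1 h4
    have h6 : (rk (D q) : ℝ) ≤ 2 * s q := by exact_mod_cast h5
    have := h3s (s q)
    linarith
  refine ⟨fun q hq => (hfew q hq).1, ?_, ?_⟩
  · have h1 : ∀ q ∈ T, Real.sqrt (3 ^ rk (D q) * sh3 (D q)) ≤ ((3 : ℝ) ^ s q - 1) + 1 := by
      intro q hq
      rw [sub_add_cancel]
      apply Real.sqrt_le_iff.2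
      refine ⟨by positivity, ?_⟩
      exact_mod_cast (hfew q hq).2
    refine le_trans (Finset.sum_le_sum h1) ?_
    rw [Finset.sum_add_distrib, Finset.sum_const, nsmul_eq_mul, mul_one]
    linarith
  · exact le_trans (Finset.sum_le_sum hrk) hsum1

end Pool.Agent.Q7.CE
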