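import Pool.Agent.Q7.LK.All3
import Pool.Agent.Q7.CE.All
import Pool.Agent.Q7.CE.Main2
import Pool.Agent.Q193.CE.Meanm
import Pool.Agent.Q193.CE.Ekum2
import Pool.Agent.Q251.CE.EVB
import Pool.Agent.Q38.CE.ERS

/-!
# Project CE, part 2: all parts together
-/

set_option autoImplicit false

namespace Pool.Agent.Q7.LK

theorem t_MEANM : S_MEANM := Pool.Agent.Q193.CE.meanm t_BASE t_LOC t_SH1 t_SH2M t_EE t_COUNT t_NEST

end Pool.Agent.Q7.LK

namespace Pool.Agent.Q7.CE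

open Pool.Agent.Q7.LK

theorem t_EKUM2 : S_EKUM2 := Pool.Agent.Q193.CE.ekum2
theorem t_EVB : S_EVB := Pool.Agent.Q251.CE.evb t_EKUM2 t_ECOND
theorem t_ERS : S_ERS := Pool.Agent.Q38.CE.ers t_EDD
theorem t_EMEAN : S_EMEAN := emean t_MEANM t_ELOC t_HS2 t_EISO t_ISO t_ESUM t_EVB t_ERS

end Pool.Agent.Q7.CE
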