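import Pool.Agent.Q7.CE.All2
import Pool.Agent.Q7.CE.Main3
import Pool.Agent.Q123.CE.FEND
import Pool.Agent.Q275.CE.FS2
import Pool.Agent.Q53.CE.FLOC
import Pool.Agent.Q251.CE.FS1

/-!
# Project CE, part 3: all parts together
-/

set_option autoImplicit false

namespace Pool.Agent.Q7.CE

open Pool.Agent.Q7.LK

theorem t_FEND : S_FEND := Pool.Agent.Q123.CE.fend
theorem t_FLOC : S_FLOC := Pool.Agent.Q53.CE.floc t_BAS t_CPL t_FEND
theorem t_FS1 : S_FS1 := Pool.Agent.Q251.CE.FS1.fs1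
theorem t_FS2 : S_FS2 := Pool.Agent.Q275.CE.fs2 t_FEND t_FS1 t_ECOND
theorem t_FMAIN : S_FMAIN := fmain t_SHARE t_ELOC t_HS2 t_EISO t_ISO t_ESUM t_FLOC t_FS2

end Pool.Agent.Q7.CE
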